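import Pool.Agent.H45.JMP.Gro
import Pool.Agent.H96.R1.Gw

/-!
# Labels and chains for a further coordinate

In a greedy order `ε` with exactness, for any coordinate `N` outside the first `k` coordinates:
`lam_one`: if subclasses have labels of `N` over the first `k` coordinates with precision and
gradient `q`, `1 - q` for all `q < 1`, of bounded degree and on balls of arbitrarily small radius,
then the number of `N` over the first `k` coordinates is `1`; `lab_at`: labels at the window itself;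
`thr_le`: chains for `N` over the first `k` coordinates. `thr_of_sub`: the form for packages.
-/

set_option autoImplicit false

namespace Pool.JMP45

open Finset Real MvPolynomial
open Pool.Agent.H49.Ent Pool.Agent.H32.Dense Pool.STK Pool.BFL Pool.KA Pool.KSAT Pool.K2S Pool.PB
open Pool.GEN Pool.S6C Pool.GRW Pool.CHT
open Pool.LBT (LSys Slo Tri ThrOf)
open Pool.FLF (Fam.sub)
open Pool.UNJ (ceI Tub)

variable {m n J : ℕ}

/-- The first coordinates are full beyond the largest number. -/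
theorem ful_of {S : PCl m} {C₀ : ℝ} (htm : TmC S C₀)
    {L : Finset (Fin m) → Fin m → ℝ → ℝ → ℝ} (hL : LamW S L) {ε : Fin n → Fin m}
    {c : ℕ → Fin m} (hcε : ∀ i : Fin n, c i = ε i) {w : ℝ} (hw : w ∈ Wv L ε)
    (hex : VExa S L ε w) {k : ℕ} (hk : k ≤ n) {u : ℝ} (hu : vs L ε w k ≤ u) :
    ∀ ρ : ℝ, 0 < ρ → Bas S (fun J F A => ∀ (V : Type) (z : PtT F → V) (z' : LnT F → V),
      (∀ ω, A ω → z (ptr F J ω) = z' (slam F ⌊w * J⌋₊ ω)) →
      ((range k).image c).card * (((J - ⌊u * J⌋₊ : ℕ) : ℝ) * Real.log 2) - ρ * J ≤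
        CH (Pool.Agent.H49.Ent.cond F.p A True) (fun ω => ceI ((range k).image c) (fun _ => J) (F.x ω))
          (fun ω => (ceI ((range k).image c) (fun _ => ⌊u * J⌋₊) (F.x ω), z' (slam F ⌊w * J⌋₊ ω),
            F.W ω))) := by
  classical
  obtain ⟨hw0, hw1, hg, hct⟩ := hw
  have hmono := hg.mono hL hw1.le
  have hs0 : ∀ l, w ≤ vs L ε w l := le_vs hL ε hw1.le
  have hpos : Bas S (fun _ F A => 0 < Pe F.p A) := (tmc_bas htm one_pos).mono 0
    fun _ _ _ _ h => h.1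
  have hposA : ∀ (τ : ℝ) (J : ℕ) (F : Fam m J) (A : F.Ω → Prop), S.St τ J F A → 0 < Pe F.p A :=
    fun τ J F A hA => (htm (max τ 1) J F A (lt_of_lt_of_le one_pos (le_max_right _ _))
      (S.mono (le_max_left _ _) hA)).1
  obtain ⟨εi, hεi⟩ : ∃ εi : Fin k → Fin m, εi = fun j : Fin k => c j := ⟨_, rfl⟩
  have hfull := Pool.EXW.full_cls (S := S) (ε := εi) (w := w) (u := u)
    (s := fun j => vs L ε w (j + 1)) (r := fun j => vs L ε w j)
    (fun τ J F A _ hA => hposA τ J F A hA) ((hw0.le.trans (hs0 k)).trans hu)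
    (fun j => (hmono (by omega : (j : ℕ) + 1 ≤ k)).trans hu)
    (fun j => (hmono (by omega : (j : ℕ) ≤ k)).trans hu)
    (fun ρ hρ => by
      rw [hεi]
      exact vst_ini hpos hL hcε hw0 hw1 hg hct hex hk hρ)
    (fun e he => by
      obtain ⟨K₃, hK₃⟩ := vst_att hL hw0 hw1 hg hct he
      refine ⟨K₃, fun j => ?_⟩
      have h1 := hK₃ ⟨j, by omega⟩ ⟨j, by omega⟩ le_rfl
      have h2 : (Iio (⟨j, by omega⟩ : Fin n)).image ε = (Iio j).image εi := by
        rw [img_eq hcε, hεi]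
        exact (img_eq (n := k) (ε := fun j : Fin k => c j) (c := c) (fun _ => rfl) j).symm
      rw [h2, ← hcε ⟨j, by omega⟩] at h1
      rw [hεi] at h1 ⊢
      exact h1)
  have hIm : (univ : Finset (Fin k)).image εi = (range k).image c := by
    ext x
    simp only [mem_image, mem_univ, true_and, mem_range, hεi]
    constructor
    · rintro ⟨j, rfl⟩
      exact ⟨j, j.2, rfl⟩
    · rintro ⟨j, hj, rfl⟩
      exact ⟨⟨j, hj⟩, rfl⟩
  rw [hIm] at hfull
  exact hfull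

/-- **The number of a further coordinate is one**, if there are subclasses with labels of fixed
degrees whose precisions tend to one and whose gradients at the points tend to zero. -/
theorem lam_one {S : PCl m} {C₀ : ℝ} (htm : TmC S C₀)
    {L : Finset (Fin m) → Fin m → ℝ → ℝ → ℝ} (hL : LamW S L) {ε : Fin n → Fin m}
    {c : ℕ → Fin m} (hcε : ∀ i : Fin n, c i = ε i) {w : ℝ} (hw : w ∈ Wv L ε)
    (hex : VExa S L ε w) {k : ℕ} (hk : k ≤ n) (hlt : vs L ε w k < 1) {N : Fin m}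
    (hq : ∀ q : ℝ, q < 1 → ∃ S' : PCl m, S'.Ne ∧
      (∀ (τ : ℝ) (J : ℕ) (F : Fam m J) (A : F.Ω → Prop), S'.St τ J F A → S.St τ J F A) ∧
      ∃ (K : ℕ) (C : ℝ), 0 < C ∧ Bas S' (fun J F A => ∃ (B : F.Ω → Prop) (ρ : ℕ), Sub B A ∧
        Pe F.p A ≤ C * Pe F.p B ∧ Lb F ((range k).image c) N K ⌊(1 - q) * J⌋₊ J ⌊w * J⌋₊ ρ
          ⌊q * J⌋₊ B)) :
    L ((range k).image c) N w (vs L ε w k) = 1 := by
  classical
  have hw0 := hw.1
  have hw1 := hw.2.1
  have hs0 : ∀ l, w ≤ vs L ε w l := le_vs hL ε hw1.le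
  by_contra hne
  have hlt1 : L ((range k).image c) N w (vs L ε w k) < 1 :=
    lt_of_le_of_ne (hL.le1 _ _ _ _) hne
  obtain ⟨l, hl⟩ : ∃ l, l = L ((range k).image c) N w (vs L ε w k) := ⟨_, rfl⟩
  rw [← hl] at hlt1
  obtain ⟨d, hd0, hd1, habs⟩ := hL.abs ((range k).image c) N w (vs L ε w k) ((l + 1) / 2)
    (by rw [← hl]; linarith) (by linarith)
  obtain ⟨q, hqd⟩ : ∃ q, q = max ((l + 1) / 2) (1 - d / 4) := ⟨_, rfl⟩
  have hq1 : q < 1 := by rw [hqd]; exact max_lt (by linarith) (by linarith)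
  have hql : (l + 1) / 2 ≤ q := by rw [hqd]; exact le_max_left _ _
  have hqe : 1 - q ≤ d / 4 := by
    have : 1 - d / 4 ≤ q := by rw [hqd]; exact le_max_right _ _
    linarith
  obtain ⟨S', hS', hsub, K, C, hC, hlab⟩ := hq q hq1
  obtain ⟨η, hη⟩ : ∃ η, η = min (d / 4) ((1 - vs L ε w k) / 2) := ⟨_, rfl⟩
  have hη0 : 0 < η := by rw [hη]; exact lt_min (by linarith) (by linarith)
  have hηd : η ≤ d / 4 := by rw [hη]; exact min_le_left _ _
  have hηv : η ≤ (1 - vs L ε w k) / 2 := by rw [hη]; exact min_le_right _ _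
  obtain ⟨u, hu⟩ : ∃ u, u = vs L ε w k + η := ⟨_, rfl⟩
  have hu1 : u < 1 := by rw [hu]; linarith
  have hwu : w ≤ u := by rw [hu]; linarith [hs0 k]
  have hfull := ful_of htm hL hcε hw hex hk (u := u) (by rw [hu]; linarith)
  have htm' : TmC S' C₀ := fun τ J F A hτ hA => htm τ J F A hτ (hsub τ J F A hA)
  have hgrow := grow_cls htm' ((range k).image c) N hwu (hw0.le.trans hwu) hu1
    (fun ρ hρ => Bas.sub hsub (hfull ρ hρ)) K (h := d / 4) (by linarith)
  have hno : Bas S' _ := Bas.sub hsub (habs d le_rfl K)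
  have hno2 := bas_part (hgrow.and (bas_half hno)) (c := max C 1)
    (lt_of_lt_of_le one_pos (le_max_right _ _))
  refine Clp.not_false hS' (Bas.clp ((hlab.and hno2).mono 0 ?_))
  rintro J _ F A ⟨⟨B, ρ, hBA, hPB, hB⟩, h2⟩
  have hJ0 : (0 : ℝ) ≤ J := Nat.cast_nonneg J
  have hB0 := Pe_nonneg F.isLaw B
  obtain ⟨h3, h4⟩ := h2 B hBA (hPB.trans (mul_le_mul_of_nonneg_right (le_max_left _ _) hB0))
  obtain ⟨B', hB'B, hPB', hB'⟩ := h3 _ _ _ hB
  refine h4 B' hB'B hPB' ?_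
  refine hB'.mono (Finset.Subset.refl _) le_rfl ?_ le_rfl
    (Nat.floor_le_floor (mul_le_mul_of_nonneg_right (by linarith) hJ0)) (fl_le hd1 J)
    (Nat.floor_le_floor (mul_le_mul_of_nonneg_right (by rw [hu]; linarith) hJ0))
    (Nat.floor_le_floor (mul_le_mul_of_nonneg_right hql hJ0))
  have e1 : ⌊(1 - q) * J⌋₊ + ⌊d / 4 * J⌋₊ ≤ ⌊(1 - q) * J + d / 4 * J⌋₊ := by
    refine Nat.le_floor ?_
    push_cast
    have e2 := Nat.floor_le (show 0 ≤ (1 - q) * (J : ℝ) from mul_nonneg (by linarith) hJ0)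
    have e3 := Nat.floor_le (show 0 ≤ d / 4 * (J : ℝ) by positivity)
    linarith
  refine e1.trans (Nat.floor_le_floor ?_)
  rw [← add_mul]
  exact mul_le_mul_of_nonneg_right (by linarith) hJ0

/-- **Labels of a further coordinate at the window itself**, if its number is continuous. -/
theorem lab_at {S : PCl m} {L : Finset (Fin m) → Fin m → ℝ → ℝ → ℝ} (hL : LamW S L)
    {ε : Fin n → Fin m} {c : ℕ → Fin m} (hcε : ∀ i : Fin n, c i = ε i) {w : ℝ}
    (hw : w ∈ Wv L ε) {k : ℕ} (hk : k < n) (hlt : vs L ε w k < 1) (N : Fin m) {e : ℝ}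
    (he : 0 < e) : ∃ K, Bas S (fun J F A => Lb F ((range k).image c) N K ⌊e * J⌋₊ J ⌊w * J⌋₊
      ⌊min (vs L ε w k + e) 1 * J⌋₊ ⌊(L ((range k).image c) N w (vs L ε w k) - e) * J⌋₊ A) := by
  obtain ⟨hw0, hw1, hg, hct⟩ := hw
  have h1 := hct ⟨k, hk⟩ N
  rw [Metric.continuousAt_iff] at h1
  obtain ⟨δ, hδ, h2⟩ := h1 (e / 2) (half_pos he)
  obtain ⟨w', hw'⟩ : ∃ w', w' = w - δ / 2 := ⟨_, rfl⟩
  have h3 : |vn L ε ⟨k, hk⟩ N w' - vn L ε ⟨k, hk⟩ N w| < e / 2 := by
    have := @h2 w' (by rw [Real.dist_eq, hw', abs_lt]; constructor <;> linarith)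
    rwa [Real.dist_eq] at this
  have h4 := (abs_lt.1 h3).1
  obtain ⟨e', he'⟩ : ∃ e', e' = min (e / 2) (1 - vs L ε w k) := ⟨_, rfl⟩
  have he'0 : 0 < e' := by rw [he']; exact lt_min (half_pos he) (by linarith)
  have he'1 : e' ≤ e / 2 := by rw [he']; exact min_le_left _ _
  have he'2 : e' ≤ 1 - vs L ε w k := by rw [he']; exact min_le_right _ _
  obtain ⟨K, hK⟩ := hL.att ((range k).image c) N w' w (vs L ε w' k) e' hw0 hw1.le
    (by rw [hw']; linarith) he'0
  refine ⟨K, Bas.mono 0 hK ?_⟩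
  intro J _ F A hG
  have hJ : (0 : ℝ) ≤ J := Nat.cast_nonneg J
  have hr : vs L ε w' k ≤ vs L ε w k := vs_mono hL ε k (by rw [hw']; linarith)
  have hIm : (Iio (⟨k, hk⟩ : Fin n)).image ε = (range k).image c := img_eq hcε ⟨k, hk⟩
  refine hG.mono (Finset.Subset.refl _) le_rfl
    (Nat.floor_le_floor (mul_le_mul_of_nonneg_right (by linarith) hJ)) le_rfl le_rfl
    (fl_le hw1.le J) (Nat.floor_le_floor (mul_le_mul_of_nonneg_right ?_ hJ))
    (Nat.floor_le_floor (mul_le_mul_of_nonneg_right ?_ hJ))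
  · exact le_min (by linarith) (by linarith)
  · unfold vn at h4
    rw [hIm] at h4
    simp only at h4
    linarith

/-- **Chains for a further coordinate**: the thresholds at larger windows are at least the
precision of its labels over the first coordinates. -/
theorem thr_le {θ : ℝ} (hθ : 0 < θ) {S : PCl m} (hS : S.Ne) {C₀ : ℝ} (htm : TmC S C₀)
    {L : Finset (Fin m) → Fin m → ℝ → ℝ → ℝ}
    (hL : LamW S L) {P : List (Fin m) × Fin m → ℝ → ℝ → ℝ} (hP : ThrOf (chsys m θ) S P)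
    {ε : Fin n → Fin m} (hε : Function.Injective ε) {c : ℕ → Fin m}
    (hcε : ∀ i : Fin n, c i = ε i) {w : ℝ} (hw : w ∈ Wv L ε) (hex : VExa S L ε w)
    {k : ℕ} (hk : k ≤ n) (hlt : ∀ i < k, vs L ε w (i + 1) < 1) {N : Fin m}
    (hN : ∀ i < k, c i ≠ N) {s₀ r₀ : ℝ} (hs₀ : 0 ≤ s₀) (hs₁ : s₀ ≤ 1)
    (hlab : ∀ e : ℝ, 0 < e → ∃ K, Bas S (fun J F A => Lb F ((range k).image c) N K ⌊e * J⌋₊ J
      ⌊w * J⌋₊ ⌊min (r₀ + e) 1 * J⌋₊ ⌊(s₀ - e) * J⌋₊ A))
    {w' : ℝ} (hww : w < w') (hw' : w' ≤ 1) :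
    s₀ ≤ P ((List.range k).map c, N) w' w' := by
  classical
  have hpos : Bas S (fun _ F A => 0 < Pe F.p A) := (tmc_bas htm one_pos).mono 0
    fun _ _ _ _ h => h.1
  obtain ⟨hw0, hw1, hg, hct⟩ := hw
  by_contra hcon
  push Not at hcon
  obtain ⟨p, hp⟩ : ∃ p, p = P ((List.range k).map c, N) w' w' := ⟨_, rfl⟩
  rw [← hp] at hcon
  obtain ⟨h, hh⟩ : ∃ h, h = (s₀ - p) / 2 := ⟨_, rfl⟩
  have hh0 : 0 < h := by rw [hh]; linarith
  have hs1 : ∀ l, vs L ε w l ≤ 1 := vs_le1 hL ε hw1.le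
  have hs0 : ∀ l, w ≤ vs L ε w l := le_vs hL ε hw1.le
  obtain ⟨δ, hδ⟩ : ∃ δ, δ = min h (θ * w / 2) := ⟨_, rfl⟩
  have hθw : 0 < θ * w := mul_pos hθ hw0
  have hδ0 : 0 < δ := by rw [hδ]; exact lt_min hh0 (by linarith)
  have hδh : δ ≤ h := by rw [hδ]; exact min_le_left _ _
  have hδθ : δ < θ * w := by
    have : δ ≤ θ * w / 2 := by rw [hδ]; exact min_le_right _ _
    linarith
  obtain ⟨c'', hc''⟩ : ∃ c'', c'' = Function.update c k N := ⟨_, rfl⟩
  have hcj : c'' k = N := by rw [hc'']; exact Function.update_self _ _ _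
  have hcl : ∀ l, l ≠ k → c'' l = c l := fun l hl => by rw [hc'']; exact Function.update_of_ne hl _ _
  obtain ⟨s, hs⟩ : ∃ s : ℕ → ℝ, s = fun i => if i < k then vs L ε w (i + 1) else s₀ := ⟨_, rfl⟩
  have hsl : ∀ l < k, s l = vs L ε w (l + 1) := fun l hl => by
    rw [hs]
    exact if_pos hl
  have hsk : s k = s₀ := by
    rw [hs]
    exact if_neg (Nat.lt_irrefl k)
  obtain ⟨rd, hrd⟩ : ∃ rd : ℕ → ℝ, rd = fun i => if i < k then vs L ε w i else r₀ := ⟨_, rfl⟩
  have hinj : ∀ {x y : ℕ}, x < n → y < n → c x = c y → x = y := by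
    intro x y hx hy hxy
    have h1 := hcε ⟨x, hx⟩
    have h2 := hcε ⟨y, hy⟩
    simp only at h1 h2
    rw [h1, h2] at hxy
    exact congrArg Fin.val (hε hxy)
  have himg : ∀ i ≤ k, (range i).image c'' = (range i).image c := by
    intro i hi
    refine Finset.image_congr fun l hl => ?_
    have hl' : l < i := by simpa using hl
    exact hcl l (by omega)
  obtain ⟨K, d, hKd, hB⟩ := chn_of htm (c := c'') (r := k + 1) (w := w) (s := s) (b := fun i => i)
    (fun x hx y hy hxy => by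
      have hx' : x < k + 1 := hx
      have hy' : y < k + 1 := hy
      by_cases hxj : x = k
      · by_cases hyj : y = k
        · omega
        · rw [hxj, hcj, hcl y hyj] at hxy
          exact absurd hxy.symm (hN y (by omega))
      · by_cases hyj : y = k
        · rw [hyj, hcj, hcl x hxj] at hxy
          exact absurd hxy (hN x (by omega))
        · rw [hcl x hxj, hcl y hyj] at hxy
          exact hinj (by omega) (by omega) hxy)
    hw0.le hw1 (fun _ => le_rfl)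
    (fun i hi => by
      rcases Nat.lt_or_ge i k with h1 | h1
      · rw [hsl i h1]
        exact hw0.le.trans (hs0 _)
      · rw [show i = k by omega, hsk]
        exact hs₀)
    (fun i hi l hl => by
      have hl0 : l < i := hl
      have hl' : l < k := by omega
      rw [hsl l hl']
      exact hlt l hl')
    (fun ρ hρ => by
      refine (vst_crd hpos hL hcε hw0 hw1 hg hct hex hρ).mono 0 ?_
      intro J _ F A h1 V z z' hz i hi l hl
      have hl0 : l < i := hl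
      have hl' : l < k := by omega
      have h2 := h1 V z z' hz l (by omega)
      rw [hsl l hl', hcl l (by omega)]
      have h3 : (fun ω => ((fun l' : Fin l => F.X J ω (c'' l')), z' (slam F ⌊w * J⌋₊ ω), F.W ω)) =
          fun ω => ((fun l' : Fin l => F.X J ω (c l')), z' (slam F ⌊w * J⌋₊ ω), F.W ω) := by
        funext ω
        congr 1
        funext l'
        rw [hcl l' (by omega)]
      rw [h3]
      exact h2)
    (rd := rd)
    (fun i hi e he => by
      rcases Nat.lt_or_ge i k with h1 | h1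
      · have hin : i < n := by omega
        obtain ⟨K, hK⟩ := vst_att1 hL hw0 hw1 hg hct i ⟨i, hin⟩ rfl ⟨i, hin⟩ le_rfl e he
        refine ⟨K, hK.mono 0 fun J _ F A h2 => ?_⟩
        rw [himg i h1.le, ← img_eq hcε ⟨i, hin⟩, hcl i (by omega), hsl i h1, hrd]
        simp only [if_pos h1]
        rw [show c i = ε ⟨i, hin⟩ from hcε ⟨i, hin⟩]
        exact h2
      · have hik : i = k := by omega
        subst hik
        obtain ⟨K, hK⟩ := hlab e he
        refine ⟨K, hK.mono 0 fun J _ F A h2 => ?_⟩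
        rw [himg i le_rfl, hcj, hsk, hrd]
        simp only [if_neg (Nat.lt_irrefl i)]
        exact h2)
    (φ := fun _ => 1) (fun _ => one_pos) hδ0
  -- the chain labels
  obtain ⟨K₁, J₁, hK₁⟩ := le_lipE' hw0.le hδθ
  obtain ⟨K₀, hK₀⟩ : ∃ K₀, K₀ = max K₁ ((range (k + 1)).sup K) := ⟨_, rfl⟩
  have hph : p + h ≤ 1 := by
    rw [hh]
    linarith
  have hno := bas_half (hP.no' ((List.range k).map c, N) K₀ (h := h) hw0.le le_rfl hww hww le_rfl
    hw' hh0 (by rw [← hp]; exact hph))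
  refine Clp.not_false hS (Bas.clp ((hB.and hno).mono J₁ ?_))
  rintro J hJ F A ⟨⟨B, hBA, hPe, hch⟩, h2⟩
  refine h2 B hBA hPe ?_
  have hJ0 : (0 : ℝ) ≤ J := Nat.cast_nonneg J
  have hmap : (List.range k).map c = (List.range k).map c'' := by
    refine List.map_congr_left fun l hl => ?_
    rw [List.mem_range] at hl
    exact (hcl l (by omega)).symm
  have hT := Cht.of_chN (θ := θ) (P := ⌊(p + h) * J⌋₊) (K₀ := K₀) (a := ⌊w * J⌋₊) (w := ⌊w * J⌋₊)
    hch le_rfl le_rfl le_rfl ?_ ?_ ?_ ?_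
  · rw [hcj, ← hmap, hp] at hT
    exact hT
  · refine Nat.add_le_add_right (Nat.floor_le_floor (mul_le_mul_of_nonneg_right ?_ hJ0)) _
    have h3 := (hKd k (Nat.lt_succ_self k)).2.1
    have h4 : s₀ = p + 2 * h := by rw [hh]; ring
    rw [hsk]
    linarith
  · intro l hl
    rw [hK₀]
    exact (Finset.le_sup (f := K) (mem_range.2 hl)).trans (le_max_right _ _)
  · exact hK₁ K₀ (by rw [hK₀]; exact le_max_left _ _) J hJ
  · intro l hl
    refine Pool.LBT.fl_le' ?_ J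
    have h3 := (hKd l (by omega)).1
    have h4 : s l ≤ 1 := by
      rcases Nat.lt_or_ge l k with h5 | h5
      · rw [hsl l h5]
        exact hs1 _
      · rw [show l = k by omega, hsk]
        exact hs₁
    linarith

/-- **Chains for a further coordinate at the window itself**, if the threshold is continuous on
the diagonal. -/
theorem thr_le' {θ : ℝ} (hθ : 0 < θ) {S : PCl m} (hS : S.Ne) {C₀ : ℝ} (htm : TmC S C₀)
    {L : Finset (Fin m) → Fin m → ℝ → ℝ → ℝ}
    (hL : LamW S L) {P : List (Fin m) × Fin m → ℝ → ℝ → ℝ} (hP : ThrOf (chsys m θ) S P)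
    {ε : Fin n → Fin m} (hε : Function.Injective ε) {c : ℕ → Fin m}
    (hcε : ∀ i : Fin n, c i = ε i) {w : ℝ} (hw : w ∈ Wv L ε) (hex : VExa S L ε w)
    {k : ℕ} (hk : k ≤ n) (hlt : ∀ i < k, vs L ε w (i + 1) < 1) {N : Fin m}
    (hN : ∀ i < k, c i ≠ N) {s₀ r₀ : ℝ} (hs₀ : 0 ≤ s₀) (hs₁ : s₀ ≤ 1)
    (hlab : ∀ e : ℝ, 0 < e → ∃ K, Bas S (fun J F A => Lb F ((range k).image c) N K ⌊e * J⌋₊ J
      ⌊w * J⌋₊ ⌊min (r₀ + e) 1 * J⌋₊ ⌊(s₀ - e) * J⌋₊ A))
    (hcon : ContinuousAt (dg P ((List.range k).map c, N)) w) :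
    s₀ ≤ P ((List.range k).map c, N) w w := by
  have hw0 := hw.1
  have hw1 := hw.2.1
  refine le_of_forall_pos_le_add fun e he => ?_
  have h1 := hcon
  rw [Metric.continuousAt_iff] at h1
  obtain ⟨δ, hδ, h2⟩ := h1 e he
  obtain ⟨w', hw'⟩ : ∃ w', w' = min (w + δ / 2) 1 := ⟨_, rfl⟩
  have hww : w < w' := by rw [hw']; exact lt_min (by linarith) hw1
  have hw'1 : w' ≤ 1 := by rw [hw']; exact min_le_right _ _
  have hw'2 : w' ≤ w + δ / 2 := by rw [hw']; exact min_le_left _ _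
  have h3 := @h2 w' (by rw [Real.dist_eq, abs_lt]; constructor <;> linarith)
  rw [Real.dist_eq, dg_eq P _ (hw0.le.trans hww.le) hw'1, dg_eq P _ hw0.le hw1.le] at h3
  have h4 := thr_le hθ hS htm hL hP hε hcε hw hex hk hlt hN hs₀ hs₁ hlab hww hw'1
  have h5 := (abs_lt.1 h3).2
  linarith

/-- The precision of the base before the last exponent. -/
theorem vs_lt_one {L : Finset (Fin m) → Fin m → ℝ → ℝ → ℝ} {ε : Fin n → Fin m} {w : ℝ}
    (hw1 : w < 1) {k : ℕ} (hlt : ∀ i < k, vs L ε w (i + 1) < 1) : vs L ε w k < 1 := by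
  cases k with
  | zero => exact hw1
  | succ k => exact hlt k (Nat.lt_succ_self k)

/-- **The numbers of a further coordinate are at most its thresholds.** -/
theorem lam_le_thr {θ : ℝ} (hθ : 0 < θ) {S : PCl m} (hS : S.Ne) {C₀ : ℝ} (htm : TmC S C₀)
    {L : Finset (Fin m) → Fin m → ℝ → ℝ → ℝ}
    (hL : LamW S L) {P : List (Fin m) × Fin m → ℝ → ℝ → ℝ} (hP : ThrOf (chsys m θ) S P)
    {ε : Fin n → Fin m} (hε : Function.Injective ε) {c : ℕ → Fin m}
    (hcε : ∀ i : Fin n, c i = ε i) {w : ℝ} (hw : w ∈ Wv L ε) (hex : VExa S L ε w)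
    {k : ℕ} (hk : k < n) (hlt : ∀ i < k, vs L ε w (i + 1) < 1) {N : Fin m}
    (hN : ∀ i < k, c i ≠ N) (hcon : ContinuousAt (dg P ((List.range k).map c, N)) w) :
    L ((range k).image c) N w (vs L ε w k) ≤ P ((List.range k).map c, N) w w :=
  thr_le' hθ hS htm hL hP hε hcε hw hex hk.le hlt hN
    (hw.1.le.trans (hL.low _ _ _ _ hw.2.1.le)) (hL.le1 _ _ _ _)
    (fun _ he => lab_at hL hcε hw hk (vs_lt_one hw.2.1 hlt) N he) hcon

/-! ### The forms for packages -/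

open Pool.PKG Pool.R1
open Pool.ONE (lst)

variable {hn : 2 ≤ n} {S : PCl n} {P : ℝ → ℝ → ℝ} {r : ℝ → ℝ}
  {P' : ℕ → List (Fin n) × Fin n → ℝ → ℝ → ℝ} {Λ : Finset (Fin n) → Fin n → ℝ → ℝ → ℝ}

/-- **The number of the last coordinate over a part of the base is one.** -/
theorem lam_of_sub (H : Pk hn S P r P' Λ) (hF : FZX (n - 1)) {w : ℝ} (hg : Gwd P P' Λ w) {k : ℕ}
    (hk : k < n - 1) (hlt : ∀ i < k, vs Λ (fun i => bse (ow Λ w i)) w (i + 1) < 1)
    (hq : ∀ q : ℝ, q < 1 → ∃ S' : PCl n, S'.Ne ∧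
      (∀ (τ : ℝ) (J : ℕ) (F : Fam n J) (A : F.Ω → Prop), S'.St τ J F A → S.St τ J F A) ∧
      ∃ (K : ℕ) (C : ℝ), 0 < C ∧ Bas S' (fun J F A => ∃ (B : F.Ω → Prop) (ρ : ℕ), Sub B A ∧
        Pe F.p A ≤ C * Pe F.p B ∧ Lb F ((range k).image (cc hn (ow Λ w))) (lst hn) K
          ⌊(1 - q) * J⌋₊ J ⌊w * J⌋₊ ρ ⌊q * J⌋₊ B)) :
    Λ ((range k).image (cc hn (ow Λ w))) (lst hn) w (vs Λ (fun i => bse (ow Λ w i)) w k) = 1 :=
  lam_one H.tmc H.lam (fun i => cc_lt hn (ow Λ w) i.2) hg.ow.2 (pk_exa H hF hg.ow.1 hg.ow.2)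
    hk.le (vs_lt_one hg.lt hlt) hq

/-- The threshold of the last coordinate over a part of the base is at least its number. -/
theorem thr_ge_lam (H : Pk hn S P r P' Λ) (hF : FZX (n - 1)) {w : ℝ} (hg : Gwd P P' Λ w) {k : ℕ}
    (hk : k < n - 1) (hlt : ∀ i < k, vs Λ (fun i => bse (ow Λ w i)) w (i + 1) < 1) (j : ℕ) :
    Λ ((range k).image (cc hn (ow Λ w))) (lst hn) w (vs Λ (fun i => bse (ow Λ w i)) w k) ≤
      P' j ((List.range k).map (cc hn (ow Λ w)), lst hn) w w :=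
  lam_le_thr (tht_pos j) H.ne H.tmc H.lam (H.cht j) (bse_inj.comp (ow Λ w).injective)
    (fun i => cc_lt hn (ow Λ w) i.2) hg.ow.2 (pk_exa H hF hg.ow.1 hg.ow.2) hk hlt
    (fun _ hi => cc_ne hn (ow Λ w) (hi.trans hk)) (hg.con j _)

/-- **The threshold of the last coordinate over a part of the base is one**, if its number is. -/
theorem thr_of_lam (H : Pk hn S P r P' Λ) (hF : FZX (n - 1)) {w : ℝ} (hg : Gwd P P' Λ w) {k : ℕ}
    (hk : k < n - 1) (hlt : ∀ i < k, vs Λ (fun i => bse (ow Λ w i)) w (i + 1) < 1)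
    (h1 : Λ ((range k).image (cc hn (ow Λ w))) (lst hn) w
      (vs Λ (fun i => bse (ow Λ w i)) w k) = 1) (j : ℕ) :
    P' j ((List.range k).map (cc hn (ow Λ w)), lst hn) w w = 1 := by
  refine le_antisymm ((H.cht j).up _ w w hg.pos.le le_rfl hg.lt.le) ?_
  have h2 := thr_ge_lam H hF hg hk hlt j
  rwa [h1] at h2

/-- **The threshold of the last coordinate over a part of the base is one**, if subclasses have
labels of fixed degrees whose precisions tend to one and whose gradients at the points tend to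
zero. -/
theorem thr_of_sub (H : Pk hn S P r P' Λ) (hF : FZX (n - 1)) {w : ℝ} (hg : Gwd P P' Λ w) {k : ℕ}
    (hk : k < n - 1) (hlt : ∀ i < k, vs Λ (fun i => bse (ow Λ w i)) w (i + 1) < 1)
    (hq : ∀ q : ℝ, q < 1 → ∃ S' : PCl n, S'.Ne ∧
      (∀ (τ : ℝ) (J : ℕ) (F : Fam n J) (A : F.Ω → Prop), S'.St τ J F A → S.St τ J F A) ∧
      ∃ (K : ℕ) (C : ℝ), 0 < C ∧ Bas S' (fun J F A => ∃ (B : F.Ω → Prop) (ρ : ℕ), Sub B A ∧
        Pe F.p A ≤ C * Pe F.p B ∧ Lb F ((range k).image (cc hn (ow Λ w))) (lst hn) K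
          ⌊(1 - q) * J⌋₊ J ⌊w * J⌋₊ ρ ⌊q * J⌋₊ B)) (j : ℕ) :
    P' j ((List.range k).map (cc hn (ow Λ w)), lst hn) w w = 1 :=
  thr_of_lam H hF hg hk hlt (lam_of_sub H hF hg hk hlt hq) j

end Pool.JMP45
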