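import Pool.Agent.H45.JMP.Lst
import Pool.Agent.H93.PM.ThN

/-!
# The last coordinate has a full threshold over a part of the base

`thr_of_lab`: labels of full precision over the first `k` coordinates in a subclass give the
threshold `1`. `thr_lst`: if the numbers of the base are smaller than `1` before the place `k` and
`1` there, and the rate is not attained, then the last coordinate has the threshold `1` over the
first `k` coordinates.
-/

set_option autoImplicit false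

namespace Pool.JMP45

open Finset Real MvPolynomial
open Pool.Agent.H49.Ent Pool.Agent.H32.Dense Pool.STK Pool.BFL Pool.KA Pool.KSAT Pool.K2S Pool.PB
open Pool.GEN Pool.S6C Pool.GRW Pool.CHT
open Pool.LBT (LSys Slo Tri ThrOf)
open Pool.PKG Pool.R1
open Pool.TOP (RW)
open Pool.ONE (lst)

variable {n : ℕ} {hn : 2 ≤ n} {S : PCl n} {P : ℝ → ℝ → ℝ} {r : ℝ → ℝ}
  {P' : ℕ → List (Fin n) × Fin n → ℝ → ℝ → ℝ} {Λ : Finset (Fin n) → Fin n → ℝ → ℝ → ℝ}

/-- **Labels of full precision in a subclass give the threshold one.** -/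
theorem thr_of_lab (H : Pk hn S P r P' Λ) (hF : FZX (n - 1)) {w : ℝ} (hg : Gwd P P' Λ w) {k : ℕ}
    (hk : k < n - 1) (hlt : ∀ i < k, vs Λ (fun i => bse (ow Λ w i)) w (i + 1) < 1)
    (hlab : ∃ S' : PCl n, S'.Ne ∧ (∀ (τ : ℝ) (J : ℕ) (F : Fam n J) (A : F.Ω → Prop),
      S'.St τ J F A → S.St τ J F A) ∧ ∀ e : ℝ, 0 < e → ∃ K : ℕ, Bas S' (fun J F A =>
        Lb F ((range k).image (cc hn (ow Λ w))) (lst hn) K ⌊e * J⌋₊ J ⌊w * J⌋₊
          ⌊min (1 + e) 1 * J⌋₊ ⌊(1 - e) * J⌋₊ A)) (j : ℕ) :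
    P' j ((List.range k).map (cc hn (ow Λ w)), lst hn) w w = 1 := by
  refine le_antisymm ((H.cht j).up _ w w hg.pos.le le_rfl hg.lt.le) ?_
  obtain ⟨S', hne, hs, hlab⟩ := hlab
  have H' := Pool.PM93.pk_le H hne hs
  exact thr_le' (tht_pos j) H'.ne H'.tmc H'.lam (H'.cht j) (bse_inj.comp (ow Λ w).injective)
    (fun i => cc_lt hn (ow Λ w) i.2) hg.ow.2 (pk_exa H' hF hg.ow.1 hg.ow.2) hk.le hlt
    (fun _ hi => cc_ne hn (ow Λ w) (hi.trans hk)) zero_le_one le_rfl (r₀ := 1) hlab (hg.con j _)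

/-- **The last coordinate has the threshold one over a part of the base.** -/
theorem thr_lst (H : Pk hn S P r P' Λ) (hF : FZX (n - 1)) (hRW : ∀ k, 2 ≤ k → k < n → RW k)
    {w : ℝ} (hg : Gwd P P' Λ w) {k : ℕ} (hk1 : 1 ≤ k) (hk : k < n - 1)
    (hlt : ∀ i < k, vs Λ (fun i => bse (ow Λ w i)) w (i + 1) < 1)
    (hone : vs Λ (fun i => bse (ow Λ w i)) w (k + 1) = 1)
    (hbad : ∀ Q : ℝ, 0 ≤ Q → Q < 1 → r 1 - r Q < 1 - Q) (j : ℕ) :
    P' j ((List.range k).map (cc hn (ow Λ w)), lst hn) w w = 1 :=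
  thr_of_lab H hF hg hk hlt (Pool.PM93.lab_lst H hRW hg hk1 hk hlt hone hbad) j

end Pool.JMP45
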