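import Pool.Agent.H45.EXA.Exv

/-!
# Closed labels on larger balls

`grow_fam`: a closed label whose gradient is bounded at the points of the family is, on one half of
the event, a closed label on the balls of radius `2 ^ (-u)`, if the coordinates are full below the
cells of side `2 ^ (-u)`; the degree is fixed and the loss is `exp (C (θ + t + 1))`. `grow_cls`: the
class form.
-/

set_option autoImplicit false

namespace Pool.JMP45

open Finset Real MvPolynomial
open Pool.Agent.H49.Ent Pool.Agent.H32.Dense Pool.STK Pool.BFL Pool.KA Pool.KSAT Pool.K2S Pool.PB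
open Pool.GEN Pool.S6C Pool.GRW
open Pool.FLF (Fam.sub)
open Pool.UNJ (ceI Tub)

variable {m n J : ℕ}

/-- Finite unions. -/
theorem pb_any {Ω ι : Type} [Fintype Ω] [Fintype ι] {q : Ω → ℝ} (hq : ∀ ω, 0 ≤ q ω)
    (A : ι → Ω → Prop) {η : ℝ} (h : ∀ i, Pb q (A i) ≤ η) :
    Pb q (fun ω => ∃ i, A i ω) ≤ (Fintype.card ι : ℝ) * η := by
  classical
  have h1 : Pb q (fun ω => ∃ i, A i ω) ≤ ∑ i, Pb q (A i) := by
    unfold Pb
    rw [Finset.sum_comm]
    refine Finset.sum_le_sum fun ω _ => ?_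
    by_cases hA : ∃ i, A i ω
    · obtain ⟨i, hAi⟩ := hA
      rw [if_pos ⟨i, hAi⟩]
      have h2 := Finset.single_le_sum (f := fun i => if A i ω then q ω else 0) (fun i _ => by
        split_ifs
        · exact hq ω
        · exact le_rfl) (mem_univ i)
      simp only [if_pos hAi] at h2
      exact h2
    · rw [if_neg hA]
      refine Finset.sum_nonneg fun i _ => ?_
      split_ifs
      · exact hq ω
      · exact le_rfl
  refine h1.trans ((Finset.sum_le_sum fun i _ => h i).trans ?_)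
  rw [Finset.sum_const, nsmul_eq_mul, Finset.card_univ]

/-- **A closed label on larger balls**, from the gradient at the points. -/
theorem grow_fam (m K : ℕ) : ∃ C : ℝ, 1 ≤ C ∧
    ∀ (J : ℕ) (F : Fam m J) (A : F.Ω → Prop) (_ : 0 < Pe F.p A) (I : Finset (Fin m))
      (k : Fin m) (w u r₁ P e ρ c : ℕ) (V : Type) (z : PtT F → V) (z' : LnT F → V)
      (G : V → MvPolynomial (Option (Fin m)) ℝ) (θ t : ℝ), w ≤ u → u ≤ J → 0 ≤ θ → 0 ≤ t →
      (J : ℝ) * Real.log 2 - t ≤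
        CH (Pool.Agent.H49.Ent.cond F.p A True) F.T (fun ω => (F.l ω, F.Z ω)) →
      LbOK F I k K e r₁ w ρ P A z z' G →
      I.card * (((J - u : ℕ) : ℝ) * Real.log 2) - θ ≤
        CH (Pool.Agent.H49.Ent.cond F.p A True) (fun ω => ceI I (fun _ => J) (F.x ω))
        (fun ω => (ceI I (fun _ => u) (F.x ω), z' (slam F w ω), F.W ω)) →
      C * (θ + t + 1) ≤ ((J - u : ℕ) : ℝ) * Real.log 2 →
      Real.exp (C * (θ + t + 1)) ≤ 2 ^ c →
      ∃ B : F.Ω → Prop, Sub B A ∧ Pe F.p A ≤ 2 * Pe F.p B ∧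
        LbOK F I k K (e + c) r₁ w u P B z z' G := by
  classical
  obtain ⟨C₁, hC₁, hU⟩ := Pool.UNJ.uni_dep m K 2 (by norm_num)
  have hm0 : (0 : ℝ) ≤ m := Nat.cast_nonneg m
  have hm1 : (1 : ℝ) ≤ 2 * ((m : ℝ) + 1) := by linarith
  refine ⟨C₁ * (2 * (m + 1)), by nlinarith, ?_⟩
  intro J F A hA I k w u r₁ P e ρ c V z z' G θ t hwu huJ hθ ht hTm hG hV hX hc
  have hq := isLaw_cond F.isLaw hA
  have h0 := hq.nonneg
  have hqA : ∀ ω, 0 < Pool.Agent.H49.Ent.cond F.p A True ω → A ω := fun ω hω =>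
    of_eq_true ((cond_pos_iff F.isLaw.nonneg A True ω).1 hω).2
  obtain ⟨q, hqd⟩ : ∃ q, q = Pool.Agent.H49.Ent.cond F.p A True := ⟨_, rfl⟩
  rw [← hqd] at hq h0 hqA hTm hV
  have hA0 : Pb q (fun ω => ¬ A ω) = 0 := by
    unfold Pb
    refine Finset.sum_eq_zero fun ω _ => ?_
    by_cases hω : A ω
    · rw [if_neg (not_not.2 hω)]
    · rw [if_pos hω]
      by_contra hne
      exact hω (hqA ω (lt_of_le_of_ne (h0 ω) (Ne.symm hne)))
  obtain ⟨η, hη⟩ : ∃ η : ℝ, η = 1 / (2 * (m + 1)) := ⟨_, rfl⟩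
  have hη0 : 0 < η := by rw [hη]; positivity
  have hη1 : η ≤ 1 := by
    rw [hη, div_le_one (by positivity)]
    exact hm1
  have hCη : ∀ x : ℝ, C₁ * x / η = C₁ * (2 * (m + 1)) * x := by
    intro x
    rw [hη]
    field_simp
  obtain ⟨N, hN⟩ : ∃ N : Option (Fin m) → F.Ω → Prop, N = fun o ω => ¬ ∀ b, Tub F I (fun _ => u) w
      2 ω b → |eval b (pderiv o (G (z' (slam F w ω))))| ≤
        Real.exp (C₁ * (θ + t + 1) / η) * 2 ^ e := ⟨_, rfl⟩
  have key : ∀ o, Pb q (N o) ≤ η := by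
    intro o
    rw [hN]
    refine hU J F q I (fun _ => u) w (J - u) V (fun ω => z' (slam F w ω))
      (fun x => pderiv o (G x)) A (fun _ => 2 ^ e) θ t η hq hTm (by omega)
      (fun ω ω' _ _ h => by simp only [h]) (fun x => totalDegree_pdσ (hG.deg x) o)
      (fun x b b' hb hb' => ?_) hθ ht hη0 hη1 (fun _ => by positivity) ?_ ?_ ?_ ?_
    · refine dep_pd (G x) (fun o => o = none ∨ ∃ i ∈ I, o = some i) (fun b b' h => ?_) o b b' ?_
      · exact hG.dep x b b' (h none (Or.inl rfl)) fun i hi => h (some i) (Or.inr ⟨i, hi, rfl⟩)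
      · rintro o (rfl | ⟨i, hi, rfl⟩)
        · exact hb
        · exact hb' i hi
    · rw [Nat.add_sub_of_le huJ]
      exact hV
    · rw [hA0]
      positivity
    · rw [hCη]
      exact hX
    · intro ω hω
      exact hG.lip ω hω (bt F ω) (fun o' => by rw [sub_self, abs_zero]; positivity) o
  have h1 : Pb q (fun ω => ∃ o, N o ω) ≤ 1 / 2 := by
    refine (pb_any h0 N key).trans (le_of_eq ?_)
    rw [Fintype.card_option, Fintype.card_fin, hη]
    push_cast
    field_simp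
  rw [show Pb q (fun ω => ∃ o, N o ω) = Pe q (fun ω => ∃ o, N o ω) by rw [Pe_eq]; rfl, hqd,
    Pe_cond, div_le_iff₀ hA] at h1
  refine ⟨fun ω => A ω ∧ ¬ ∃ o, N o ω, fun ω hω => hω.1, ?_, ?_⟩
  · have h3 := Pool.GRD.Pe_minus (A := A) (B := A) (N := fun ω => ∃ o, N o ω) F.isLaw.nonneg
      (fun _ h => h)
    linarith
  · refine ⟨hG.deg, hG.dep, fun ω hω => hG.cls ω hω.1, fun ω hω => hG.pos ω hω.1,
      fun ω hω => hG.vel ω hω.1, fun ω hω b hb o => ?_⟩
    have h2 : ¬ N o ω := fun h => hω.2 ⟨o, h⟩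
    rw [hN] at h2
    have h3 := not_not.1 h2 b (by
      have hd := hb none
      have e3 : bt F ω none = F.t ω := rfl
      rw [e3] at hd
      have hwu' : (1 : ℝ) / 2 ^ u ≤ 1 / 2 ^ w := inv_mono hwu
      have hu0 : (0 : ℝ) < 1 / 2 ^ u := by positivity
      refine ⟨?_, fun i _ => ?_⟩
      · have e4 : (2 : ℝ) / 2 ^ w = 2 * (1 / 2 ^ w) := by ring
        rw [e4]
        linarith
      · have e1 := hb (some i)
        have e4 : bt F ω (some i) = F.u ω i + F.t ω * F.d ω i := rfl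
        rw [e4] at e1
        have e5 := F.dir ω i
        have e6 : |(b none - F.t ω) * F.d ω i| ≤ 1 / 2 ^ u := by
          rw [abs_mul]
          exact (mul_le_of_le_one_right (abs_nonneg _) e5).trans hd
        have e7 : b (some i) - (F.u ω i + b none * F.d ω i) =
            (b (some i) - (F.u ω i + F.t ω * F.d ω i)) - (b none - F.t ω) * F.d ω i := by ring
        rw [e7]
        refine (abs_sub _ _).trans ?_
        have e8 : (2 : ℝ) / 2 ^ u = 2 * (1 / 2 ^ u) := by ring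
        show _ ≤ (2 : ℝ) / 2 ^ u
        rw [e8]
        linarith)
    refine h3.trans ?_
    rw [hCη, pow_add, mul_comm]
    exact mul_le_mul_of_nonneg_left hc (by positivity)

/-- **Closed labels on larger balls in a class.** `full`: the coordinates in `I` are full below the
cells of side `2 ^ (-u J)`, given every closed function at the window `w`, up to every error. -/
theorem grow_cls {S : PCl m} {C₀ : ℝ} (htm : TmC S C₀)
    (I : Finset (Fin m)) (k : Fin m) {w u : ℝ} (hwu : w ≤ u) (hu0 : 0 ≤ u) (hu : u < 1)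
    (full : ∀ ρ : ℝ, 0 < ρ → Bas S (fun J F A => ∀ (V : Type) (z : PtT F → V) (z' : LnT F → V),
      (∀ ω, A ω → z (ptr F J ω) = z' (slam F ⌊w * J⌋₊ ω)) →
      I.card * (((J - ⌊u * J⌋₊ : ℕ) : ℝ) * Real.log 2) - ρ * J ≤
        CH (Pool.Agent.H49.Ent.cond F.p A True) (fun ω => ceI I (fun _ => J) (F.x ω))
          (fun ω => (ceI I (fun _ => ⌊u * J⌋₊) (F.x ω), z' (slam F ⌊w * J⌋₊ ω), F.W ω))))
    (K : ℕ) {h : ℝ} (hh : 0 < h) :
    Bas S (fun J F A => ∀ e ρ P : ℕ, Lb F I k K e J ⌊w * J⌋₊ ρ P A →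
      ∃ B : F.Ω → Prop, Sub B A ∧ Pe F.p A ≤ 2 * Pe F.p B ∧
        Lb F I k K (e + ⌊h * J⌋₊) J ⌊w * J⌋₊ ⌊u * J⌋₊ P B) := by
  classical
  obtain ⟨C, hC, hgr⟩ := grow_fam m K
  have hl2 : 0 < Real.log 2 := Real.log_pos one_lt_two
  have hC0 : 0 < C := by linarith
  obtain ⟨δ, hδ⟩ : ∃ δ : ℝ, δ = min (h * Real.log 2 / (2 * C)) ((1 - u) * Real.log 2 / C) :=
    ⟨_, rfl⟩
  have hδ0 : 0 < δ := by
    rw [hδ]
    refine lt_min (by positivity) (div_pos (mul_pos (by linarith) hl2) hC0)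
  have hδ1 : C * δ ≤ h / 2 * Real.log 2 := by
    have e1 : δ ≤ h * Real.log 2 / (2 * C) := by
      rw [hδ]
      exact min_le_left _ _
    have e2 : C * (h * Real.log 2 / (2 * C)) = h / 2 * Real.log 2 := by
      field_simp
    rw [← e2]
    exact mul_le_mul_of_nonneg_left e1 hC0.le
  have hδ2 : C * δ ≤ (1 - u) * Real.log 2 := by
    have e1 : δ ≤ (1 - u) * Real.log 2 / C := by
      rw [hδ]
      exact min_le_right _ _
    have e2 : C * ((1 - u) * Real.log 2 / C) = (1 - u) * Real.log 2 := by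
      field_simp
    rw [← e2]
    exact mul_le_mul_of_nonneg_left e1 hC0.le
  obtain ⟨J₁, hJ₁⟩ := exists_nat_ge (3 / δ + 4 / h)
  refine ((full (δ / 3) (by linarith)).and (tmc_bas htm (ψ := δ / 3) (by linarith))).mono J₁ ?_
  rintro J hJ F A ⟨hF, hA, hT⟩ e ρ P ⟨V, z, z', G, hG⟩
  have hJ1 : (J₁ : ℝ) ≤ J := by exact_mod_cast hJ
  have hJ0 : (0 : ℝ) ≤ J := Nat.cast_nonneg J
  have f1 : 1 ≤ δ / 3 * J := by
    have e1 : 3 / δ ≤ J := by
      have : 0 < 4 / h := by positivity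
      linarith
    rw [div_le_iff₀ hδ0] at e1
    linarith
  have f2 : 4 ≤ h * J := by
    have e1 : 4 / h ≤ J := by
      have : 0 < 3 / δ := by positivity
      linarith
    rw [div_le_iff₀ hh] at e1
    linarith
  have hy1 : C * (δ / 3 * J + δ / 3 * J + 1) ≤ C * δ * J := by
    calc C * (δ / 3 * J + δ / 3 * J + 1) ≤ C * (δ * J) :=
          mul_le_mul_of_nonneg_left (by linarith) hC0.le
      _ = C * δ * J := by ring
  have huJ : ⌊u * J⌋₊ ≤ J := fl_le hu.le J
  have huf : ((⌊u * J⌋₊ : ℕ) : ℝ) ≤ u * J := Nat.floor_le (by positivity)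
  obtain ⟨B, hBA, hPB, hB⟩ := hgr J F A hA I k ⌊w * J⌋₊ ⌊u * J⌋₊ J P e ρ ⌊h * J⌋₊ V z z' G
    (δ / 3 * J) (δ / 3 * J) (Nat.floor_le_floor (mul_le_mul_of_nonneg_right hwu hJ0)) huJ
    (by positivity) (by positivity) hT hG (hF V z z' hG.cls) (by
      refine hy1.trans ?_
      rw [Nat.cast_sub huJ]
      calc C * δ * J ≤ (1 - u) * Real.log 2 * J := mul_le_mul_of_nonneg_right hδ2 hJ0
        _ = (J - u * J) * Real.log 2 := by ring
        _ ≤ ((J : ℝ) - (⌊u * J⌋₊ : ℕ)) * Real.log 2 :=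
          mul_le_mul_of_nonneg_right (by linarith) hl2.le) (by
      have e1 : C * δ * J ≤ (⌊h * J⌋₊ : ℕ) * Real.log 2 := by
        have e2 := Nat.lt_floor_add_one (h * (J : ℝ))
        have e3 := mul_le_mul_of_nonneg_right hδ1 hJ0
        have e4 : h / 2 * Real.log 2 * J ≤ (h * J - 1) * Real.log 2 := by
          have : h / 2 * J ≤ h * J - 1 := by linarith
          nlinarith
        have e5 : (h * J - 1) * Real.log 2 ≤ (⌊h * J⌋₊ : ℕ) * Real.log 2 :=
          mul_le_mul_of_nonneg_right (by linarith) hl2.le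
        linarith
      refine (Real.exp_le_exp.2 (hy1.trans e1)).trans (le_of_eq ?_)
      rw [Real.exp_nat_mul, Real.exp_log (by norm_num)])
  exact ⟨B, hBA, hPB, V, z, z', G, hB⟩

end Pool.JMP45
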